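import Mathlib

set_option maxHeartbeats 400000

namespace Pool.Agent.Results.MP_3b52ff_co.Elusive

open Finset

/-- every vertex has degree at least `k` in the graph on `ℕ` with edge set `H` -/
def D (k : ℕ) (H : Set (Sym2 ℕ)) : Prop := ∀ v, (k : ℕ∞) ≤ {u | u ≠ v ∧ s(v, u) ∈ H}.encard

/-- the pair chosen at turn `n` by the Seeker strategy `σ` when Hider answers `a` (`true` = green) -/
def move (σ : List Bool → Sym2 ℕ) (a : ℕ → Bool) (n : ℕ) : Sym2 ℕ := σ (List.ofFn fun i : Fin n => a i)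

/-- green pairs at the end of the run with moves `m` and answers `a` -/
def Green (m : ℕ → Sym2 ℕ) (a : ℕ → Bool) : Set (Sym2 ℕ) := {e | ∃ n, m n = e ∧ a n = true}

/-- white pairs at the end of the run with moves `m` -/
def White (m : ℕ → Sym2 ℕ) : Set (Sym2 ℕ) := {e | ¬ e.IsDiag ∧ ∀ n, m n ≠ e}

/-- Seeker has no winning strategy in the game of length `ω` for the property `S` -/
def InfElusive (S : Set (Sym2 ℕ) → Prop) : Prop :=
  ¬ ∃ σ : List Bool → Sym2 ℕ, ∀ a : ℕ → Bool,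
    (Function.Injective (move σ a) ∧ ∀ n, ¬ (move σ a n).IsDiag) ∧ (White (move σ a)).Nonempty ∧
    ((∀ H, Green (move σ a) a ⊆ H → H ⊆ Green (move σ a) a ∪ White (move σ a) → S H) ∨
      ∀ H, Green (move σ a) a ⊆ H → H ⊆ Green (move σ a) a ∪ White (move σ a) → ¬ S H)

open Classical in
noncomputable def fix (P : (ℕ → Bool) → ℕ → Prop) (n : ℕ) : Bool :=
  decide (P (fun i => if _ : i < n then fix P i else false) n)

theorem fix_iff (P : (ℕ → Bool) → ℕ → Prop)
    (hP : ∀ a b n, (∀ i < n, a i = b i) → P a n → P b n) (n : ℕ) : fix P n = true ↔ P (fix P) n := by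
  rw [fix]
  simp only [decide_eq_true_eq]
  exact ⟨hP _ _ _ fun i hi => by simp [hi], hP _ _ _ fun i hi => by simp [hi]⟩

def dg (m : ℕ → Sym2 ℕ) (a : ℕ → Bool) (n v : ℕ) : ℕ :=
  ((range n).filter fun i => a i = true ∧ v ∈ m i).card

def lw (m : ℕ → Sym2 ℕ) (n v : ℕ) : Finset ℕ := (range v).filter fun c => ∀ i < n, m i ≠ s(c, v)

def Rule (k : ℕ) (m : ℕ → Sym2 ℕ) (a : ℕ → Bool) (n : ℕ) : Prop :=
  ∃ x y, m n = s(x, y) ∧ x < y ∧ y.unpair.1 = x ∧ dg m a n x + 1 + (lw m n x).card ≤ k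

theorem inv {k : ℕ} (hk : 2 ≤ k) {m : ℕ → Sym2 ℕ} {a : ℕ → Bool} (hm : Function.Injective m)
    (h : ∀ n, a n = true → Rule k m a n) (n v : ℕ) :
    (v.unpair.1 ∈ lw m n v → dg m a n v = 0 ∨ dg m a n v + (lw m n v).card ≤ k) ∧
      (k ≤ dg m a n v → (lw m n v).card = 0) := by
  induction n with
  | zero => exact ⟨fun _ => .inl rfl, fun h => by simp [dg] at h; omega⟩
  | succ n ih =>
    have h1 : lw m (n + 1) v ⊆ lw m n v := fun c hc =>
      mem_filter.2 ⟨(mem_filter.1 hc).1, fun i hi => (mem_filter.1 hc).2 i (by omega)⟩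
    have h2 := card_le_card h1
    have h3 : dg m a (n + 1) v = dg m a n v + if a n = true ∧ v ∈ m n then 1 else 0 := by
      rw [dg, range_add_one, filter_insert]
      split_ifs
      · rw [card_insert_of_notMem (by simp)]; rfl
      · rfl
    split_ifs at h3 with h4
    · obtain ⟨x, y, e, hxy, hp, hc⟩ := h n h4.1
      have h5 := h4.2
      rw [e, Sym2.mem_iff] at h5
      rcases h5 with rfl | rfl
      · omega
      · have h6 : x ∉ lw m (n + 1) v := fun hx => (mem_filter.1 hx).2 n (by omega) e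
        have h7 : x ∈ lw m n v := mem_filter.2 ⟨mem_range.2 hxy, fun i hi e' =>
          hi.ne (hm (e'.trans e.symm))⟩
        have := card_lt_card ((ssubset_iff_of_subset h1).2 ⟨x, h7, h6⟩)
        have := ih.1 (hp ▸ h7)
        exact ⟨fun hx => absurd (hp ▸ hx) h6, by omega⟩
    · exact ⟨fun hx => by have := ih.1 (h1 hx); omega, fun hx => by have := ih.2 (by omega); omega⟩

theorem result (k : ℕ) (hk : 2 ≤ k) : InfElusive (D k) := by
  rintro ⟨σ, hσ⟩
  have hfix := fix_iff (fun a => Rule k (move σ a) a) (by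
    rintro a b n hab ⟨x, y, e, h1, h2, h3⟩
    have hm : ∀ i ≤ n, move σ a i = move σ b i := fun i hi => by
      unfold move; congr 2; funext j; exact hab j (by omega)
    refine ⟨x, y, hm n le_rfl ▸ e, h1, h2, ?_⟩
    have e1 : dg (move σ b) b n x = dg (move σ a) a n x := by
      unfold dg; congr 1
      exact filter_congr fun i hi => by rw [hab i (mem_range.1 hi), hm i (mem_range.1 hi).le]
    have e2 : lw (move σ b) n x = lw (move σ a) n x :=
      filter_congr fun c _ => forall₂_congr fun i hi => by rw [hm i hi.le]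
    rwa [e1, e2])
  generalize fix (fun a => Rule k (move σ a) a) = a at hfix
  obtain ⟨⟨hm, hd⟩, ⟨e, he⟩, h⟩ := hσ a
  generalize move σ a = m at *
  rcases h with h | h
  · obtain ⟨c, v, hcv, rfl⟩ : ∃ c v, c < v ∧ e = s(c, v) := by
      induction e using Sym2.ind with | _ x y =>
      rcases lt_or_gt_of_ne (fun e => he.1 (Sym2.mk_isDiag_iff.2 e) : x ≠ y) with h | h
      exacts [⟨x, y, h, rfl⟩, ⟨y, x, h, Sym2.eq_swap⟩]
    obtain ⟨T, hT, hc⟩ := Set.exists_subset_encard_eq (h _ subset_rfl Set.subset_union_left v)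
    obtain ⟨T, rfl⟩ := (Set.finite_of_encard_eq_coe hc).exists_finset_coe
    choose! t h1 h2 using fun u (hu : u ∈ T) => (hT hu).2
    have : k ≤ dg m a (T.sup t + 1) v := by
      rw [Set.encard_coe_eq_coe_finsetCard, Nat.cast_inj] at hc
      refine hc ▸ card_le_card_of_injOn t (fun u hu => mem_coe.2 (mem_filter.2 ⟨mem_range.2
        (Nat.lt_succ_of_le (le_sup hu)), h2 u hu, by simp [h1 u hu]⟩)) fun u hu w hw e => ?_
      exact Sym2.congr_right.1 ((h1 u hu).symm.trans (e ▸ h1 w hw))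
    have := card_eq_zero.1 ((inv hk hm (fun n => (hfix n).1) _ v).2 this)
    exact notMem_empty c (this ▸ mem_filter.2 ⟨mem_range.2 hcv, fun i _ => he.2 i⟩)
  · refine h _ Set.subset_union_left subset_rfl fun x => not_lt.1 fun hx => ?_
    obtain ⟨N, hN⟩ := (Set.finite_of_encard_le_coe hx.le).exists_finset_coe
    rw [← hN, Set.encard_coe_eq_coe_finsetCard, Nat.cast_lt] at hx
    have mN : ∀ u, u ∈ N ↔ u ≠ x ∧ s(x, u) ∈ Green m a ∪ White m := fun u => by
      rw [← mem_coe, hN]; rfl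
    have ht : ∀ c, ∃ t, ∀ n, t < n → (∀ i < n, m i ≠ s(c, x)) → ∀ i, m i ≠ s(c, x) := by
      intro c
      by_cases h : ∃ t, m t = s(c, x)
      · obtain ⟨t, h⟩ := h; exact ⟨t, fun n hn h' => absurd h (h' t hn)⟩
      · exact ⟨0, fun _ _ _ i hi => h ⟨i, hi⟩⟩
    choose t ht using ht
    have hf : {y | s(x, y) ∈ m '' Set.Iic ((range x).sup t)}.Finite :=
      ((Set.finite_Iic _).image m).preimage fun _ _ _ _ e => Sym2.congr_right.1 e
    obtain ⟨B, hB⟩ := (hf.union N.finite_toSet).bddAbove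
    have hy := Nat.right_le_pair x (B + x + 1)
    generalize hyy : Nat.pair x (B + x + 1) = y at hy
    have hy1 : y ∉ _ ∪ _ := fun h => absurd (hB h) (by omega)
    simp only [Set.mem_union, mem_coe, mN, not_or, not_and] at hy1
    obtain ⟨g1, g2⟩ := hy1.2 (by omega)
    obtain ⟨n, hn⟩ : ∃ n, m n = s(x, y) := by
      by_contra h; exact g2 ⟨by simp; omega, fun n e => h ⟨n, e⟩⟩
    have hn1 : (range x).sup t < n := not_le.1 fun h => hy1.1 ⟨n, h, hn⟩
    refine g1 ⟨n, hn, (hfix n).2 ⟨x, y, hn, by omega, by rw [← hyy, Nat.unpair_pair], ?_⟩⟩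
    have w : ∀ c ∈ lw m n x, s(x, c) ∈ White m ∧ c ≠ x := fun c hc => by
      obtain ⟨c1, c2⟩ := mem_filter.1 hc
      have := mem_range.1 c1
      exact ⟨⟨by simp; omega, Sym2.eq_swap ▸ ht c n ((le_sup c1).trans_lt hn1) c2⟩, by omega⟩
    have : dg m a n x ≤ (N \ lw m n x).card := by
      have o : ∀ i, x ∈ m i → ∃ u, m i = s(x, u) := fun i hi => ⟨_, (Sym2.other_spec hi).symm⟩
      choose! o ho using o
      refine card_le_card_of_injOn o (fun i hi => ?_) fun i hi j hj e => ?_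
      · obtain ⟨-, i1, i2⟩ := mem_filter.1 hi
        refine mem_coe.2 (mem_sdiff.2 ⟨(mN _).2 ⟨fun e => hd i ?_, .inl ⟨i, ho i i2, i1⟩⟩,
          fun hc => (w _ hc).1.2 i (ho i i2)⟩)
        rw [ho i i2, e]; simp
      · exact hm (by rw [ho i (mem_filter.1 hi).2.2, ho j (mem_filter.1 hj).2.2, e])
    have := card_sdiff_add_card_eq_card (s := lw m n x) (t := N)
      fun c hc => (mN c).2 ⟨(w c hc).2, .inr (w c hc).1⟩
    omega

end Pool.Agent.Results.MP_3b52ff_co.Elusive
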